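import Pool.Agent.H46.LSH.OutS

/-!
# From the local theorem at a pair to the local theorem, all weights

`mic_loc_out`: the own leaf is at `(i - S' an, j + S' be)`, the gluing is `glu_thm`.
`subLd`: own leaves and collinear contexts hold in a sub-cell.
-/

set_option autoImplicit false

namespace Pool.LSH

open Finset MvPolynomial
open Pool.Agent.H49.Ent Pool.Agent.H32.Dense Pool.STK Pool.STAT Pool.MIC Pool.MicA
open Pool.BFL (Pl Pb)
open Pool.STAT.Glu (EvK glu_thm kN)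

/-- Own leaves and collinear contexts with a larger error. -/
theorem LdF.mono {D : NDat2} {n z M : ℕ} {lam gam : ℕ → ℝ} {κ κ' : ℝ} {q : D.Ω → ℝ}
    (h : LdF D n z M lam gam κ q) (hκ : κ ≤ κ') : LdF D n z M lam gam κ' q := by
  have hz : κ * (z : ℝ) ≤ κ' * z := mul_le_mul_of_nonneg_right hκ (Nat.cast_nonneg _)
  refine ⟨⟨fun i j u₁ u₂ U a1 a2 a3 a4 a5 => ?_,
    fun i j u₁ u₂ U U' a1 a2 a3 a4 a5 a6 a7 => ?_⟩, h.2.mono hκ⟩
  · linarith [h.1.v i j u₁ u₂ U a1 a2 a3 a4 a5]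
  · linarith [h.1.h i j u₁ u₂ U U' a1 a2 a3 a4 a5 a6 a7]

/-- Own leaves and collinear contexts hold in a sub-cell. -/
theorem subLd : SubLdStmt := fun n K lam gam C₁ hn hlam hgam hC M' m₀ κ' hκ' =>
  Pool.MIC7.lla_dma n K hn lam gam hlam hgam C₁ hC M' m₀ κ' hκ'

/-- **From the local theorem at a pair to the local theorem.** -/
theorem mic_loc_out : MicLocOutStmt := by
  intro Q hQ hout n K A B lam gam C₁ h hn hB hlam hgam hgn hC₁ hh hh1 hQn
  have hlam0 : ∀ l, 0 < lam l := by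
    first
      | exact fun l => lt_of_lt_of_le one_pos (hlam l)
      | exact fun l => hlam.1 l
  obtain ⟨V, hV⟩ := exists_nat_ge (lam n + gam n)
  obtain ⟨N₁, hN₁⟩ := exists_nat_ge C₁
  obtain ⟨c, hc⟩ := exists_pln n lam gam hlam0 hgam hgn (hQ n lam gam hQn) (2 * C₁ + 1)
    (by linarith)
  obtain ⟨A₂, a, K₂, c₁, hVa, hc₁, hout1⟩ := hout n K B V lam gam C₁ h c hn hB hlam0 hgam hgn hC₁
    hh hh1 hQn
  obtain ⟨CG, κg, zg, hκg, hglu⟩ := glu_thm n K (K * (K + 1) ^ n) K₂ C₁ c₁ hn hc₁ le_rfl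
  obtain ⟨m, U, bb, W₁, S₁, hm, hU, hout2⟩ := hout1 (A + CG + 2 * N₁)
  obtain ⟨k, hk⟩ : ∃ k, k = A₂ * m := ⟨_, rfl⟩
  obtain ⟨W₂, hW₂⟩ := exists_wok n lam hlam0 C₁ 0 U
  obtain ⟨W, hW⟩ : ∃ W, W = max W₁ W₂ := ⟨_, rfl⟩
  have hW1 : W₁ ≤ W := by rw [hW]; exact le_max_left _ _
  have hWk : WOk n lam C₁ 0 U W := hW₂.mono hlam0 (by rw [hW]; exact le_max_right _ _)
  obtain ⟨be, co, al, an, hP⟩ := hc W
  obtain ⟨S', hS'⟩ : ∃ S', S' = S₁ + U + V * k + A + CG + 2 * N₁ + 1 := ⟨_, rfl⟩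
  obtain ⟨R, hR⟩ := hout2 W be co al an hW1 hP S' (by omega)
  obtain ⟨u₁, hu₁⟩ : ∃ u₁, u₁ = S' * an := ⟨_, rfl⟩
  obtain ⟨u₂, hu₂⟩ : ∃ u₂, u₂ = S' * be := ⟨_, rfl⟩
  obtain ⟨i, hi⟩ : ∃ i, i = R + u₁ := ⟨_, rfl⟩
  obtain ⟨j, hj⟩ : ∃ j, j = R := ⟨_, rfl⟩
  obtain ⟨M, hM⟩ : ∃ M, M = i + j + R + u₂ + k + 1 := ⟨_, rfl⟩
  obtain ⟨κ, ϖ, z₀, hκ, hϖ, hout3⟩ := hR M (by omega)
  refine ⟨M, kN K K₂, c₁ / 4, min κ κg, ϖ, max z₀ (max zg 1), by positivity, lt_min hκ hκg, hϖ,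
    ?_⟩
  intro J a₀ w₀ z D q hz hO hLA hNF hT
  have hz0 : z₀ ≤ z := (le_max_left _ _).trans hz
  have hzg : zg ≤ z := ((le_max_left _ _).trans (le_max_right _ _)).trans hz
  have hz1 : 1 ≤ z := ((le_max_right _ _).trans (le_max_right _ _)).trans hz
  have hzr : (0 : ℝ) ≤ z := Nat.cast_nonneg z
  have iM : i ≤ M := by omega
  have jM : j ≤ M := by omega
  have hi1 : S' * an ≤ i := by rw [← hu₁]; omega
  have hj1 : j + S' * be ≤ M := by rw [← hu₂]; omega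
  have hOκ : D.Ok2 n K J a₀ w₀ z M lam gam κ C₁ q := hO.mono_κ (min_le_left _ _)
  have hOg : D.Ok2 n K J a₀ w₀ z M lam gam κg C₁ q := hO.mono_κ (min_le_right _ _)
  have mk : min κ κg * (z : ℝ) ≤ κ * z := mul_le_mul_of_nonneg_right (min_le_left _ _) hzr
  have mg : min κ κg * (z : ℝ) ≤ κg * z := mul_le_mul_of_nonneg_right (min_le_right _ _) hzr
  have hTκ : D.TmU J w₀ z κ q := by
    unfold NDat2.TmU at hT ⊢
    linarith
  have hTg : D.TmU J w₀ z κg q := by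
    unfold NDat2.TmU at hT ⊢
    linarith
  have hLκ : LdF D n z M lam gam κ q := hLA.mono (min_le_left _ _)
  -- the own leaf
  have hS1 : 1 ≤ S' := by omega
  have hfat : Fat D n i j (i - S' * an) (j + S' * be) := own_fat hO hP hWk hS1 hi1 iM hj1
  have hSr : ((S' : ℕ) : ℝ) = S₁ + U + V * k + A + CG + 2 * N₁ + 1 := by
    rw [hS']
    push_cast
    ring
  have c1 : (0 : ℝ) ≤ U := Nat.cast_nonneg U
  have c2 : (0 : ℝ) ≤ S₁ := Nat.cast_nonneg S₁
  have c3 : (0 : ℝ) ≤ A := Nat.cast_nonneg A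
  have c4 : (0 : ℝ) ≤ CG := Nat.cast_nonneg CG
  have ck : (0 : ℝ) ≤ k := Nat.cast_nonneg k
  have cV : (0 : ℝ) ≤ V := Nat.cast_nonneg V
  have c5 : (0 : ℝ) ≤ V * k := mul_nonneg cV ck
  have c6 : (0 : ℝ) ≤ N₁ := Nat.cast_nonneg N₁
  have hS2 : (S' : ℝ) ≤ S' * (2 * C₁ + 1) := by
    have h1 : (0 : ℝ) ≤ S' := Nat.cast_nonneg S'
    nlinarith
  have h4 : (lam n + gam n) * k ≤ V * k := mul_le_mul_of_nonneg_right hV ck
  have hdeep : D.g i j n + U * z ≤ D.g (i - S' * an) (j + S' * be) n :=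
    own_deep hO hn hP hi1 iM hj1 iM jM (by linarith)
  have hdeep' : D.g (i + k) (j + k) n + (A + CG) * z ≤ D.g (i - S' * an) (j + S' * be) n :=
    own_deep hO hn hP hi1 iM hj1 (by omega) (by omega) (by
      push_cast
      nlinarith)
  have hW0 : (1 : ℝ) ≤ W := by
    have := hWk.win
    exact_mod_cast (by omega : 1 ≤ W)
  have hful : UniD.Ful D n i j z (κg * z) q
      (fun ω => (D.s (i - S' * an) (j + S' * be) ω, (D.c i j ω, D.T ω))) := by
    have h1 := hLA.1.v i j (S' * an) (S' * be) 1 iM hj1 hi1 (by omega) (by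
      intro l l1 l2
      obtain ⟨s, hs, -⟩ := of_rk (rk_all (π := plc i j be co al) hP.inj hP.co_ge hP.co_lt l1 l2)
      have h2 := hP.narn s
      have hs' : co s = l := hs
      rw [hs'] at h2
      have h3 : (1 : ℝ) ≤ S' := by exact_mod_cast hS1
      push_cast
      nlinarith)
    rw [Nat.one_mul] at h1
    unfold UniD.Ful
    push_cast at h1
    rw [one_mul] at h1
    linarith
  obtain ⟨H, hH, hE⟩ := hout3 J a₀ w₀ z i j D q hz0 (by omega) (by omega) (by omega) (by omega)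
    hOκ hLκ hNF hTκ
  refine ⟨i + k, by omega, j + k, by omega, ?_⟩
  have hN₁' : 1 ≤ N₁ := by exact_mod_cast hC₁.trans hN₁
  refine hglu A k J a₀ w₀ z M i j (i - S' * an) (j + S' * be) (U * z) (bb * z) ((a * m) * z) lam gam
    D q H hzg (by omega) (by omega) (by omega) hj1 hfat hOg hTg hful hH hdeep
    (Nat.mul_le_mul_right _ hU) hdeep' ?_ ?_
  · have h1 : (A₂ * V + 1) * m ≤ a * m := Nat.mul_le_mul_right _ (by
      rw [mul_comm A₂ V]
      omega)
    have h2 : ((A₂ * V * m + m : ℕ) : ℝ) ≤ ((a * m : ℕ) : ℝ) := by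
      have : A₂ * V * m + m = (A₂ * V + 1) * m := by ring
      rw [this]
      exact_mod_cast h1
    have h3 : ((A + CG + 2 * N₁ : ℕ) : ℝ) ≤ m := by exact_mod_cast hm
    push_cast at h2 h3
    have h5 : (V : ℝ) * k = A₂ * V * m := by
      rw [hk]
      push_cast
      ring
    have h6 := abs_le.1 (hO.hom i iM j jM n hn le_rfl)
    have h7 := abs_le.1 (hO.hom (i + k) (by omega) (j + k) (by omega) n hn le_rfl)
    have h8 : (lam n * ((i + k : ℕ) : ℝ) + gam n * ((j + k : ℕ) : ℝ)) * z =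
        (lam n * i + gam n * j) * z + (lam n + gam n) * k * z := by
      push_cast
      ring
    rw [h8] at h7
    have h9 : (lam n + gam n) * k * z + (A + CG + 2 * C₁) * z ≤ (a * m) * z := by
      rw [← add_mul]
      refine mul_le_mul_of_nonneg_right ?_ hzr
      linarith
    have h10 : ((D.g (i + k) (j + k) n + (A + CG) * z : ℕ) : ℝ) ≤
        ((D.g i j n + (a * m) * z : ℕ) : ℝ) := by
      push_cast
      have e1 : (A + CG + 2 * C₁) * (z : ℝ) = (A + CG) * z + 2 * C₁ * z := by ring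
      rw [e1] at h9
      linarith [h6.1, h6.2, h7.1, h7.2]
    exact_mod_cast h10
  · rw [hk]
    exact hE

/-- **From the local theorem at a pair to the local theorem without own leaves.** -/
theorem micOf_of_outS {Q : Cond2} (hQ : ∀ n lam gam, Q n lam gam → CondA n lam gam)
    (hout : MicOutS Q) : MicOf Q := micOf_of_loc subLd (mic_loc_out Q hQ hout)

end Pool.LSH
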